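import Pool.Agent.H84.SM.Targets
import Pool.Agent.H55.SM.CRE

/-!
# MP_70ba79_ag, board `smc_modules`: row SCL (with the lemmas of helper55)
-/

set_option autoImplicit false

namespace Pool.Agent.H84.SM

open MvPolynomial SC Pool.Agent.H27.LV

lemma ev_eq_sum {k : Type} [Field k] {L : Type} [CommRing L] [Algebra k L] (x y : Fin 3 → L)
    (w : L) (N : R2 k) :
    ev x y w N = ∑ j ∈ Finset.range (N.natDegree + 1),
      aeval (Sum.elim x y) (N.coeff j) * w ^ j := by
  unfold ev
  rw [Polynomial.coe_eval₂RingHom, Polynomial.eval₂_eq_sum_range]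
  rfl

theorem pf_SCL : T_SCL := by
  intro k _ _ e n N hI hB L _ _ x y w c μ η
  rw [ev_eq_sum, ev_eq_sum, Finset.mul_sum]
  refine Finset.sum_congr rfl fun j _ => ?_
  obtain ⟨h1, h2⟩ := hB j
  by_cases hj : 3 * j ≤ n
  · have h3 := h1 hj
    have h4 : aeval (Sum.elim (fun i => c * x i) (fun i => c * μ * y i + η * x i)) (N.coeff j) =
        c ^ e * aeval (Sum.elim x (fun i => c * μ * y i + η * x i)) (N.coeff j) := by
      have h5 := Pool.Agent.H55.SM.bh_scale h3 x (fun i => c * μ * y i + η * x i) c 1
      rw [one_pow, mul_one] at h5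
      have h6 : (fun i => (1 : L) * (c * μ * y i + η * x i)) =
          fun i => c * μ * y i + η * x i := by
        funext i
        rw [one_mul]
      rw [h6] at h5
      exact h5
    have h7 := Pool.Agent.H55.SM.inv_shift (hI j) x (fun i => c * μ * y i) η
    have h8 : aeval (Sum.elim x (fun i => c * μ * y i)) (N.coeff j) =
        (c * μ) ^ (n - 3 * j) * aeval (Sum.elim x y) (N.coeff j) := by
      have h5 := Pool.Agent.H55.SM.bh_scale h3 x y 1 (c * μ)
      rw [one_pow, one_mul] at h5
      have h6 : (fun i => (1 : L) * x i) = x := by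
        funext i
        rw [one_mul]
      rw [h6] at h5
      exact h5
    rw [h4, h7, h8]
    obtain ⟨i, rfl⟩ := Nat.exists_eq_add_of_le hj
    rw [Nat.add_sub_cancel_left]
    ring
  · rw [h2 (not_le.1 hj)]
    simp

end Pool.Agent.H84.SM
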