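import Pool.Agent.H84.SM.Defs
import Pool.Agent.H92.OD.Defs

/-!
# MP_70ba79_ag: targets of the board `smc_modules`, part 2: connections, contact with the curve,
part 4: final statement
-/

set_option autoImplicit false

namespace Pool.Agent.H84.SM

open MvPolynomial SC Pool.Agent.H27.LV
open Pool.Agent.H92.OD (HS cf sg uu Lat geO IsO DF DD)

/-! ### Differential equations of second order in Hahn series -/

section Hahn

variable {k : Type} [Field k] [CharZero k]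

/-- first derivative with respect to `u` -/
noncomputable def y1 (y : HS k) : HS k := sg (-1) 1 * DF y

/-- second derivative with respect to `u` -/
noncomputable def y2 (y : HS k) : HS k := sg (-2) 1 * (DF (DF y) - DF y)

/-- `y` is a solution of the equation `A(u, y) y'' + b(u, y, y') = 0` -/
def Sol (A : MvPolynomial (Fin 2) k) (b : MvPolynomial (Fin 3) k) (y : HS k) : Prop :=
  aeval ![uu k, y] A * y2 y + aeval ![uu k, y, y1 y] b = 0

/-- `φ` is a power series solution and `A(u, φ)` has order `a` -/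
structure Bas (A : MvPolynomial (Fin 2) k) (b : MvPolynomial (Fin 3) k) (φ : HS k) (a : ℕ) :
    Prop where
  lat : Lat 1 φ
  pos : geO 1 φ
  sol : Sol A b φ
  ord : IsO (aeval ![uu k, φ] A) a

/-- `U` is small: order at least `1` and larger than `a` -/
def Near (a : ℕ) (U : HS k) : Prop := geO 1 U ∧ ∃ r : ℚ, (a : ℚ) < r ∧ geO r U

end Hahn

/-- IND: the order of the difference of two solutions near `φ` is a zero of a fixed polynomial -/
def T_IND : Prop := ∀ (k : Type) [Field k] [CharZero k] (A : MvPolynomial (Fin 2) k)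
  (b : MvPolynomial (Fin 3) k) (φ : HS k) (a : ℕ), Bas A b φ a →
  ∃ χ : Polynomial k, χ ≠ 0 ∧ (a = 0 → χ = Polynomial.X ^ 2 - Polynomial.X) ∧
  ∀ U V : HS k, Near a U → Near a V → Sol A b (φ + U) → Sol A b (φ + V) →
  ∀ ν : ℚ, IsO (V - U) ν → χ.eval (ν : k) = 0

/-- CHJ: the automorphisms `u ^ r ↦ χ(r) u ^ r` -/
def T_CHJ : Prop := ∀ (k : Type) [Field k] [IsAlgClosed k] [CharZero k] (N : ℕ) (s : ℚ), 0 < N →
  (¬∃ m : ℤ, s * N = m) → ∃ (σ : HS k →+* HS k) (χ : ℚ → k), (∀ y r, cf (σ y) r = χ r * cf y r) ∧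
  (∀ r, χ r ≠ 0) ∧ (∀ r, (∃ m : ℤ, r * N = m) → χ r = 1) ∧ χ s ≠ 1

/-- RAM: solutions near `φ` have bounded ramification and bounded order -/
def T_RAM : Prop := ∀ (k : Type) [Field k] [IsAlgClosed k] [CharZero k]
  (A : MvPolynomial (Fin 2) k) (b : MvPolynomial (Fin 3) k) (φ : HS k) (a : ℕ), Bas A b φ a →
  ∃ N : ℕ, 1 ≤ N ∧ (a = 0 → N = 1) ∧ ∀ U : HS k, Near a U → (∃ n : ℕ, 0 < n ∧ Lat n U) →
  Sol A b (φ + U) → Lat N U ∧ ∀ μ : ℚ, IsO U μ → μ ≤ N

/-- IFT: implicit function -/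
def T_IFT : Prop := ∀ (k : Type) [Field k] [CharZero k] (g : MvPolynomial (Fin 2) k),
  eval ![0, 0] g = 0 → eval ![0, 0] (pderiv 1 g) ≠ 0 → ∃ φ : HS k, Lat 1 φ ∧ geO 1 φ ∧
  aeval ![uu k, φ] g = 0 ∧ ∀ (U : HS k) (μ : ℚ), 0 < μ → IsO U μ → IsO (aeval ![uu k, φ + U] g) μ

/-- BRG: embedding of a function field in the field of Hahn series, for a place and a function of
positive order -/
def T_BRG : Prop := ∀ (k K : Type) [Field k] [IsAlgClosed k] [CharZero k] [Field K] [Algebra k K]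
  [Algebra.EssFiniteType k K], Algebra.trdeg k K = 1 → ∀ (v : DV k K) (u : K) (n : ℕ), 0 < n →
  v.ord u = n → ∀ D : Derivation k K K, D u = u → ∃ φ : K →ₐ[k] HS k, φ u = uu k ∧
  (∀ z, Lat n (φ z)) ∧ (∀ z, z ≠ 0 → IsO (φ z) ((v.ord z : ℚ) / n)) ∧
  ∀ z, φ (D z) = DF (φ z)

/-! ### Affine coordinates -/

section Affine

variable {k : Type} [Field k]

/-- the point `u0 + X u1 + Y u2` -/
noncomputable def pa {L : Type} [CommRing L] [Algebra k L] (u0 u1 u2 : Fin 3 → k) (X Y : L) :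
    Fin 3 → L := fun i => algebraMap k L (u0 i) + X * algebraMap k L (u1 i) +
  Y * algebraMap k L (u2 i)

/-- the form `G` in the affine coordinates -/
noncomputable def gU (G : MvPolynomial (Fin 3) k) (u0 u1 u2 : Fin 3 → k) :
    MvPolynomial (Fin 2) k := aeval (pa u0 u1 u2 (X 0) (X 1)) G

/-- the leading coefficient of the connection in the affine coordinates -/
noncomputable def aU (A : MvPolynomial (Fin 3) k) (u0 u1 u2 : Fin 3 → k) :
    MvPolynomial (Fin 2) k := C (dt u0 u1 u2) * gU A u0 u1 u2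

/-- the connection in the affine coordinates -/
noncomputable def bU (b : A2 k) (u0 u1 u2 : Fin 3 → k) : MvPolynomial (Fin 3) k :=
  aeval (Sum.elim (pa u0 u1 u2 (X 0) (X 1) : Fin 3 → MvPolynomial (Fin 3) k)
    (fun i => C (u1 i) + C (u2 i) * X 2)) b

end Affine

/-- AFE: the equation of a connection in affine coordinates, `D X = X` -/
def T_AFE : Prop := ∀ (k L : Type) [Field k] [CharZero k] [Field L] [Algebra k L]
  (D : Derivation k L L) (α : ℕ) (A : MvPolynomial (Fin 3) k) (b : A2 k) (u0 u1 u2 : Fin 3 → k)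
  (x : Fin 3 → L) (c X Y : L), A.IsHomogeneous α → BH α 3 b → dv b = 0 → c ≠ 0 → X ≠ 0 →
  D X = X → (∀ i, x i = c * pa u0 u1 u2 X Y i) →
  aeval x A * dt x (fun i => D (x i)) (fun i => D (D (x i))) +
    aeval (Sum.elim x fun i => D (x i)) b =
  c ^ (α + 3) * X ^ 3 * (aeval ![X, Y] (aU A u0 u1 u2) * ((D (D Y) - D Y) / X ^ 2) +
    aeval ![X, Y, D Y / X] (bU b u0 u1 u2))

/-- CRE: the equation does not depend on the derivation -/
def T_CRE : Prop := ∀ (k L : Type) [Field k] [CharZero k] [Field L] [Algebra k L]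
  (D : Derivation k L L) (α : ℕ) (A : MvPolynomial (Fin 3) k) (b : A2 k)
  (x : Fin 3 → L) (c μ : L), A.IsHomogeneous α → BH α 3 b → dv b = 0 →
  aeval (fun i => c * x i) A * dt (fun i => c * x i) (fun i => (μ • D) (c * x i))
      (fun i => (μ • D) ((μ • D) (c * x i))) +
    aeval (Sum.elim (fun i => c * x i) fun i => (μ • D) (c * x i)) b =
  c ^ (α + 3) * μ ^ 3 * (aeval x A * dt x (fun i => D (x i)) (fun i => D (D (x i))) +
    aeval (Sum.elim x fun i => D (x i)) b)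

/-- CGE: the curve `G = 0` is a solution of the connection -/
def T_CGE : Prop := ∀ (k L : Type) [Field k] [CharZero k] [Field L] [Algebra k L]
  (D : Derivation k L L) (G : MvPolynomial (Fin 3) k) (d α : ℕ) (A : MvPolynomial (Fin 3) k)
  (b : A2 k) (c : Fin 3 → L), G.IsHomogeneous d → 1 ≤ d → Conn G α A b → aeval c G = 0 →
  (∃ l, gr G c l ≠ 0) →
  aeval c A * dt c (fun i => D (c i)) (fun i => D (D (c i))) +
    aeval (Sum.elim c fun i => D (c i)) b = 0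

/-- CPC: a common zero of two coprime forms is constant -/
def T_CPC : Prop := ∀ (k L : Type) [Field k] [IsAlgClosed k] [CharZero k] [Field L] [Algebra k L]
  (G P : MvPolynomial (Fin 3) k) (d e : ℕ), G.IsHomogeneous d → P.IsHomogeneous e →
  Irreducible G → ¬ G ∣ P → ∀ c : Fin 3 → L, aeval c G = 0 → aeval c P = 0 →
  ∃ (z : L) (a : Fin 3 → k), ∀ i, c i = z * algebraMap k L (a i)

/-- FNS: two coprime forms have finitely many common zeros -/
def T_FNS : Prop := ∀ (k : Type) [Field k] [IsAlgClosed k] [CharZero k]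
  (G P : MvPolynomial (Fin 3) k) (d e : ℕ), G.IsHomogeneous d → P.IsHomogeneous e →
  Irreducible G → ¬ G ∣ P → ∃ s : Finset (Fin 3 → k), (∀ a ∈ s, a ≠ 0 ∧ eval a G = 0) ∧
  ∀ a : Fin 3 → k, a ≠ 0 → eval a G = 0 → eval a P = 0 → ∃ a' ∈ s, ∃ z : k, z ≠ 0 ∧ a = z • a'

/-- BAS: the data of a connection at a point of the curve -/
def T_BAS : Prop := ∀ (k : Type) [Field k] [IsAlgClosed k] [CharZero k]
  (G : MvPolynomial (Fin 3) k) (d α : ℕ) (A : MvPolynomial (Fin 3) k) (b : A2 k), 2 ≤ d →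
  Smooth G d → Irreducible G → Conn G α A b → α < d → ∀ u0 u1 u2 : Fin 3 → k,
  dt u0 u1 u2 ≠ 0 → eval u0 G = 0 → dp (gr G u0) u2 ≠ 0 →
  ∃ (φ : HS k) (a : ℕ), Bas (aU A u0 u1 u2) (bU b u0 u1 u2) φ a ∧
  (eval u0 A ≠ 0 → a = 0) ∧ (eval u0 A = 0 → 1 ≤ a) ∧
  ∀ (U : HS k) (μ : ℚ), 0 < μ → IsO U μ → IsO (aeval ![uu k, φ + U] (gU G u0 u1 u2)) μ

/-! ### Places -/

section Places

variable {k K : Type} [Field k] [Field K] [Algebra k K]

/-- the field is generated by the coordinates -/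
def Prim (k : Type) {K : Type} [Field k] [Field K] [Algebra k K] (x : Fin 3 → K) : Prop :=
  IntermediateField.adjoin k (Set.range x) = ⊤

/-- the curve is not contained in a line -/
def NL (k : Type) {K : Type} [Field k] [Field K] [Algebra k K] (x : Fin 3 → K) : Prop :=
  ∀ a : Fin 3 → k, a ≠ 0 → ∑ i, algebraMap k K (a i) * x i ≠ 0

/-- the equation of the connection -/
def CEq (D : Derivation k K K) (A : MvPolynomial (Fin 3) k) (b : A2 k) (x : Fin 3 → K) : Prop :=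
  aeval x A * dt x (fun i => D (x i)) (fun i => D (D (x i))) +
    aeval (Sum.elim x fun i => D (x i)) b = 0

/-- the place `v` has the centre `s` on the curve `x` -/
def Cen (v : DV k K) (x : Fin 3 → K) (s : Fin 3 → k) : Prop :=
  ∃ z : K, z ≠ 0 ∧ ∀ i, ge v 1 (z * x i - algebraMap k K (s i))

/-- normalised order of a form of degree `e` at a place -/
noncomputable def nord (v : DV k K) (x : Fin 3 → K) (e : ℕ) (P : MvPolynomial (Fin 3) k) : ℤ :=
  v.ord (aeval x P) + e * poleOrder v x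

end Places

/-- CEN: centres of places -/
def T_CEN : Prop := ∀ (k K : Type) [Field k] [IsAlgClosed k] [CharZero k] [Field K] [Algebra k K]
  [Algebra.EssFiniteType k K], Algebra.trdeg k K = 1 → ∀ (v : DV k K) (x : Fin 3 → K),
  (∃ j, x j = 1) → (∃ s : Fin 3 → k, s ≠ 0 ∧ Cen v x s) ∧
  ∀ s : Fin 3 → k, s ≠ 0 → ∀ z : K, z ≠ 0 → (∀ i, ge v 1 (z * x i - algebraMap k K (s i))) →
  v.ord z = poleOrder v x ∧ ∀ (e : ℕ) (P : MvPolynomial (Fin 3) k), P.IsHomogeneous e →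
    aeval x P ≠ 0 → nord v x e P = v.ord (aeval (fun i => z * x i) P) ∧
    0 ≤ nord v x e P ∧ (eval s P ≠ 0 → nord v x e P = 0) ∧ (eval s P = 0 → 1 ≤ nord v x e P)

/-- LCA: contact at a given point of the curve -/
def T_LCA : Prop := ∀ (k : Type) [Field k] [IsAlgClosed k] [CharZero k]
  (G : MvPolynomial (Fin 3) k) (d α : ℕ) (A : MvPolynomial (Fin 3) k) (b : A2 k), 2 ≤ d →
  Smooth G d → Irreducible G → Conn G α A b → α < d → ∀ s : Fin 3 → k, s ≠ 0 → eval s G = 0 →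
  eval s A = 0 → ∃ C : ℕ, ∀ (K : Type) [Field K] [Algebra k K] [Algebra.EssFiniteType k K],
  Algebra.trdeg k K = 1 → ∀ (D : Derivation k K K), D ≠ 0 → ∀ (x : Fin 3 → K) (v : DV k K),
  (∃ j, x j = 1) → Prim k x → NL k x → aeval x G ≠ 0 → aeval x A ≠ 0 → CEq D A b x →
  Cen v x s → nord v x d G ≤ nord v x α A ∨ nord v x d G ≤ C

/-- LCB: contact at the points where `A` does not vanish -/
def T_LCB : Prop := ∀ (k : Type) [Field k] [IsAlgClosed k] [CharZero k]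
  (G : MvPolynomial (Fin 3) k) (d α : ℕ) (A : MvPolynomial (Fin 3) k) (b : A2 k), 2 ≤ d →
  Smooth G d → Irreducible G → Conn G α A b → α < d → ∀ s : Fin 3 → k, s ≠ 0 → eval s G = 0 →
  eval s A ≠ 0 → ∀ (K : Type) [Field K] [Algebra k K] [Algebra.EssFiniteType k K],
  Algebra.trdeg k K = 1 → ∀ (D : Derivation k K K), D ≠ 0 → ∀ (x : Fin 3 → K) (v : DV k K),
  (∃ j, x j = 1) → Prim k x → NL k x → aeval x G ≠ 0 → aeval x A ≠ 0 → CEq D A b x →
  Cen v x s → nord v x d G ≤ 1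

/-- SM3: the degree of the solutions of a connection -/
def T_SM3 : Prop := ∀ (k : Type) [Field k] [IsAlgClosed k] [CharZero k]
  (G : MvPolynomial (Fin 3) k) (d α : ℕ) (A : MvPolynomial (Fin 3) k) (b : A2 k), 2 ≤ d →
  Smooth G d → Irreducible G → Conn G α A b → α < d → ∃ C : ℕ,
  ∀ (K : Type) [Field K] [Algebra k K] [Algebra.EssFiniteType k K], Algebra.trdeg k K = 1 →
  ∀ (D : Derivation k K K), D ≠ 0 → ∀ (x : Fin 3 → K) (S : Finset (DV k K)), Prim k x →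
  Crv G d x S → CEq D A b x →
  (∃ (e : ℕ) (Φ : MvPolynomial (Fin 3) k), e ≤ C ∧ Φ ≠ 0 ∧ Φ.IsHomogeneous e ∧ aeval x Φ = 0) ∨
  deg k x ≤ C * S.card

/-! ### First order equations (result of part 3, helpers 92 and 3) -/

/-- FOQ: first order equations -/
def T_FOQ : Prop := ∀ (k : Type) [Field k] [IsAlgClosed k] [CharZero k]
  (G : MvPolynomial (Fin 3) k) (d : ℕ) (j : Fin 3), 2 ≤ d → Smooth G d → Irreducible G →
  ∀ Q : MvPolynomial (Fin 3) k, Q ≠ 0 → ∃ C : ℕ,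
  ∀ (K : Type) [Field K] [Algebra k K] [Algebra.EssFiniteType k K], Algebra.trdeg k K = 1 →
  ∀ (D : Derivation k K K), D ≠ 0 → ∀ (x : Fin 3 → K) (S : Finset (DV k K)), Prim k x →
  x j = 1 → Crv G d x S → D (x (j + 1)) ≠ 0 →
  aeval ![x (j + 1), x (j + 2), D (x (j + 2)) / D (x (j + 1))] Q = 0 →
  (∃ (e : ℕ) (Φ : MvPolynomial (Fin 3) k), e ≤ C ∧ Φ ≠ 0 ∧ Φ.IsHomogeneous e ∧ aeval x Φ = 0) ∨
  deg k x ≤ C * S.card

/-- FOC: the same for the equations of part 1 -/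
def T_FOC : Prop := ∀ (k : Type) [Field k] [IsAlgClosed k] [CharZero k]
  (G : MvPolynomial (Fin 3) k) (d : ℕ), 2 ≤ d → Smooth G d → Irreducible G →
  ∀ c : A2 k, c ≠ 0 → dv c = 0 → (∃ e i, BH e i c) → ∃ C : ℕ,
  ∀ (K : Type) [Field K] [Algebra k K] [Algebra.EssFiniteType k K], Algebra.trdeg k K = 1 →
  ∀ (D : Derivation k K K), D ≠ 0 → ∀ (x : Fin 3 → K) (S : Finset (DV k K)), Prim k x →
  Crv G d x S → aeval (Sum.elim x fun i => D (x i)) c = 0 →
  (∃ (e : ℕ) (Φ : MvPolynomial (Fin 3) k), e ≤ C ∧ Φ ≠ 0 ∧ Φ.IsHomogeneous e ∧ aeval x Φ = 0) ∨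
  deg k x ≤ C * S.card

/-! ### Assembly -/

/-- RIE: Riemann's inequality -/
def T_RIE : Prop := ∀ (k K : Type) [Field k] [IsAlgClosed k] [CharZero k] [Field K] [Algebra k K]
  [Algebra.EssFiniteType k K], Algebra.trdeg k K = 1 → ∃ (a : DV k K → ℕ) (c : ℕ),
  {v | a v ≠ 0}.Finite ∧ 0 < ∑ᶠ v, a v ∧ ∀ r : ℕ, ∃ V : Submodule k K, Module.Finite k V ∧
  (∀ f ∈ V, ∀ v : DV k K, ge v (-((r : ℤ) * a v)) f) ∧
  r * ∑ᶠ v, a v ≤ Module.finrank k V + c

/-- WRO: the inequality given by the Wronskian determinant -/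
def T_WRO : Prop := ∀ (k K : Type) [Field k] [IsAlgClosed k] [CharZero k] [Field K] [Algebra k K]
  [Algebra.EssFiniteType k K], Algebra.trdeg k K = 1 → ∀ (D : Derivation k K K), D ≠ 0 →
  ∀ (a : DV k K → ℕ), {v | a v ≠ 0}.Finite → ∀ V : Submodule k K, Module.Finite k V →
  (∀ f ∈ V, ∀ v : DV k K, ge v (-(a v : ℤ)) f) →
  0 ≤ 2 * (Module.finrank k V : ℤ) * ∑ᶠ v, (a v : ℤ) +
    (Module.finrank k V : ℤ) * ((Module.finrank k V : ℤ) - 1) * canDeg D

/-- CAN: the genus is not negative -/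
def T_CAN : Prop := ∀ (k K : Type) [Field k] [IsAlgClosed k] [CharZero k] [Field K] [Algebra k K]
  [Algebra.EssFiniteType k K], Algebra.trdeg k K = 1 → ∀ (D : Derivation k K K), D ≠ 0 →
  -2 ≤ canDeg D

/-- EXT: extension of places -/
def T_EXT : Prop := ∀ (k K0 K : Type) [Field k] [IsAlgClosed k] [CharZero k] [Field K0]
  [Algebra k K0] [Algebra.EssFiniteType k K0] [Field K] [Algebra k K] [Algebra.EssFiniteType k K]
  (ι : K0 →ₐ[k] K), Algebra.trdeg k K0 = 1 → Algebra.trdeg k K = 1 → ∀ w : DV k K0,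
  ∃ (v : DV k K) (e : ℕ), 0 < e ∧ ∀ z, v.ord (ι z) = e * w.ord z

/-- PRM: restriction to the field generated by the coordinates -/
def T_PRM : Prop := ∀ (k : Type) [Field k] [IsAlgClosed k] [CharZero k]
  (G : MvPolynomial (Fin 3) k) (d : ℕ), G.IsHomogeneous d →
  ∀ (K : Type) [Field K] [Algebra k K] [Algebra.EssFiniteType k K], Algebra.trdeg k K = 1 →
  ∀ (D : Derivation k K K), D ≠ 0 → ∀ (x : Fin 3 → K) (S : Finset (DV k K)), Crv G d x S →
  (∀ i, x i ∈ Set.range (algebraMap k K)) ∨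
  ∃ (K0 : Type) (_ : Field K0) (_ : Algebra k K0) (_ : Algebra.EssFiniteType k K0)
    (ι : K0 →ₐ[k] K) (x0 : Fin 3 → K0) (D0 : Derivation k K0 K0) (μ : K) (S0 : Finset (DV k K0)),
    Algebra.trdeg k K0 = 1 ∧ D0 ≠ 0 ∧ (∀ i, ι (x0 i) = x i) ∧ Prim k x0 ∧ μ ≠ 0 ∧
    (∀ z, D (ι z) = μ * ι (D0 z)) ∧ Crv G d x0 S0 ∧ S0.card ≤ S.card

/-- DSC: the equations for the smaller field -/
def T_DSC : Prop := ∀ (k K0 K : Type) [Field k] [CharZero k] [Field K0]
  [Algebra k K0] [Field K] [Algebra k K] (ι : K0 →ₐ[k] K) (D : Derivation k K K)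
  (D0 : Derivation k K0 K0) (μ : K) (x0 : Fin 3 → K0), μ ≠ 0 →
  (∀ z, D (ι z) = μ * ι (D0 z)) →
  (∀ (c : A2 k) (e i : ℕ), BH e i c →
    aeval (Sum.elim (fun j => ι (x0 j)) fun j => D (ι (x0 j))) c = 0 →
    aeval (Sum.elim x0 fun j => D0 (x0 j)) c = 0) ∧
  ∀ (α : ℕ) (A : MvPolynomial (Fin 3) k) (b : A2 k), A.IsHomogeneous α → BH α 3 b → dv b = 0 →
    CEq D A b (fun j => ι (x0 j)) → CEq D0 A b x0

/-- IMF: a form which vanishes on the image of a curve -/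
def T_IMF : Prop := ∀ (k K : Type) [Field k] [IsAlgClosed k] [CharZero k] [Field K] [Algebra k K]
  [Algebra.EssFiniteType k K], Algebra.trdeg k K = 1 → ∀ x : Fin 3 → K, (∃ j, x j = 1) →
  ∃ (e : ℕ) (Φ : MvPolynomial (Fin 3) k), e ≤ 2 * deg k x + 1 ∧ Φ ≠ 0 ∧ Φ.IsHomogeneous e ∧
  aeval x Φ = 0

/-- MAIN: every smooth curve of degree at least 50, normalised coordinates -/
def T_MAIN : Prop := ∀ (k : Type) [Field k] [IsAlgClosed k] [CharZero k]
  (G : MvPolynomial (Fin 3) k) (d : ℕ), 50 ≤ d → Smooth G d → ∃ B : ℕ,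
  ∀ (K : Type) [Field K] [Algebra k K] [Algebra.EssFiniteType k K], Algebra.trdeg k K = 1 →
  ∀ (D : Derivation k K K), D ≠ 0 → ∀ (x : Fin 3 → K) (S : Finset (DV k K)), Crv G d x S →
  ∃ (e : ℕ) (Φ : MvPolynomial (Fin 3) k), (e : ℤ) ≤ B * max 1 (canDeg D + S.card) ∧ Φ ≠ 0 ∧
    Φ.IsHomogeneous e ∧ aeval x Φ = 0

/-- FINAL: the same for arbitrary homogeneous coordinates -/
def T_FINAL : Prop := ∀ (k : Type) [Field k] [IsAlgClosed k] [CharZero k] (d : ℕ)
  (G : MvPolynomial (Fin 3) k), 50 ≤ d → G.IsHomogeneous d →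
  (∀ a : Fin 3 → k, (∀ i, eval a (pderiv i G) = 0) → a = 0) → ∃ B : ℕ,
  ∀ (K : Type) [Field K] [Algebra k K] [Algebra.EssFiniteType k K], Algebra.trdeg k K = 1 →
  ∀ (D : Derivation k K K), D ≠ 0 → ∀ (x : Fin 3 → K) (S : Finset (DV k K)),
  aeval x G ≠ 0 →
  (∀ v, v ∉ S → ∃ j, x j ≠ 0 ∧ (∀ i, x i ≠ 0 → v.ord (x j) ≤ v.ord (x i)) ∧
    v.ord (aeval x G) = d * v.ord (x j)) →
  ∃ (e : ℕ) (Φ : MvPolynomial (Fin 3) k), (e : ℤ) ≤ B * max 1 (canDeg D + S.card) ∧ Φ ≠ 0 ∧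
    Φ.IsHomogeneous e ∧ aeval x Φ = 0

end Pool.Agent.H84.SM
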