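import Pool.Agent.H84.SM.Targets2
import Pool.Agent.H64.SC.Api

/-!
# MP_70ba79_ag, board `smc_modules`: row FINAL
-/

set_option autoImplicit false

namespace Pool.Agent.H84.SM

open MvPolynomial SC Pool.Agent.H27.LV

lemma aeval_smul_hom {k L : Type} [Field k] [Field L] [Algebra k L] (P : MvPolynomial (Fin 3) k)
    (e : ℕ) (hP : P.IsHomogeneous e) (c : L) (x : Fin 3 → L) :
    aeval (fun i => c * x i) P = c ^ e * aeval x P := by
  rw [aeval_def, aeval_def, eval₂_eq, eval₂_eq, Finset.mul_sum]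
  refine Finset.sum_congr rfl fun m hm => ?_
  have h1 : ∑ i ∈ m.support, m i = e := by
    have h := hP (mem_support_iff.1 hm)
    rw [Finsupp.weight_apply, Finsupp.sum] at h
    simpa using h
  rw [← h1, ← Finset.prod_pow_eq_pow_sum]
  have h2 : ∏ i ∈ m.support, (c * x i) ^ m i = (∏ i ∈ m.support, c ^ m i) *
      ∏ i ∈ m.support, x i ^ m i := by
    rw [← Finset.prod_mul_distrib]
    exact Finset.prod_congr rfl fun i _ => mul_pow _ _ _
  rw [h2]
  ring

theorem pf_FINAL (hMAIN : T_MAIN) : T_FINAL := by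
  intro k _ _ _ d G hd hG hsm
  obtain ⟨B, hB⟩ := hMAIN k G d hd ⟨hG, hsm⟩
  refine ⟨B, ?_⟩
  intro K _ _ _ htr D hD x S hx hS
  -- a coordinate which does not vanish
  have h0 : ∃ j, x j ≠ 0 := by
    by_contra h
    push Not at h
    apply hx
    have h1 : x = fun i => (0 : K) * x i := by
      funext i
      rw [h i, mul_zero]
    rw [h1, aeval_smul_hom G d hG, zero_pow (by omega), zero_mul]
  obtain ⟨j0, hj0⟩ := h0
  have hax : ∀ (e : ℕ) (P : MvPolynomial (Fin 3) k), P.IsHomogeneous e →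
      aeval (fun i => (x j0)⁻¹ * x i) P = (x j0)⁻¹ ^ e * aeval x P :=
    fun e P hP => aeval_smul_hom P e hP _ _
  have hinv : (x j0)⁻¹ ≠ 0 := inv_ne_zero hj0
  have hcrv : Crv G d (fun i => (x j0)⁻¹ * x i) S := by
    refine ⟨⟨j0, inv_mul_cancel₀ hj0⟩, ?_, ?_⟩
    · rw [hax d G hG]
      exact mul_ne_zero (pow_ne_zero _ hinv) hx
    · intro v hv
      obtain ⟨j, hj, hmin, hord⟩ := hS v hv
      have hp : (poleOrder v (fun i => (x j0)⁻¹ * x i) : ℤ) = v.ord (x j0) - v.ord (x j) := by
        have hle : v.ord (x j) ≤ v.ord (x j0) := hmin j0 hj0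
        apply le_antisymm
        · obtain ⟨p, hp⟩ := Int.eq_ofNat_of_zero_le (sub_nonneg.2 hle)
          rw [hp]
          have : poleOrder v (fun i => (x j0)⁻¹ * x i) ≤ p := by
            refine Finset.sup_le fun i _ => ?_
            change (-(v.ord ((x j0)⁻¹ * x i))).toNat ≤ p
            by_cases hi : x i = 0
            · rw [hi, mul_zero, v.ord_zero]
              simp
            · rw [DV.ord_mul' v hinv hi, DV.ord_inv]
              have := hmin i hi
              omega
          exact_mod_cast this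
        · have h1 : (-(v.ord ((x j0)⁻¹ * x j))).toNat ≤
              poleOrder v (fun i => (x j0)⁻¹ * x i) :=
            Finset.le_sup (f := fun i => (-(v.ord ((x j0)⁻¹ * x i))).toNat) (Finset.mem_univ j)
          rw [DV.ord_mul' v hinv hj, DV.ord_inv] at h1
          omega
      rw [hax d G hG, DV.ord_mul' v (pow_ne_zero _ hinv) hx, DV.ord_pow, DV.ord_inv, hord, hp]
      ring
  obtain ⟨e, Φ, he, hne, hhom, hz⟩ := hB K htr D hD _ S hcrv
  refine ⟨e, Φ, he, hne, hhom, ?_⟩
  rw [hax e Φ hhom] at hz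
  exact (mul_eq_zero.1 hz).resolve_left (pow_ne_zero _ hinv)

end Pool.Agent.H84.SM
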