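import Pool.Agent.H84.SM.Targets

/-!
# MP_70ba79_ag, board `smc_modules`: row NEG
-/

set_option autoImplicit false

namespace Pool.Agent.H84.SM

open MvPolynomial SC Pool.Agent.H27.LV

theorem pf_NEG (hNDM : T_NDM) (hEME : T_EME) : T_NEG := by
  intro k _ _ _ G d hd hG hirr
  obtain ⟨m, hm, h⟩ := hNDM k G d hd hG hirr
  have h1 := h 0 0 (Nat.zero_le _) le_rfl (by positivity)
  have hbot : E G d (60 * m) (-(((d - 4) * m : ℕ) : ℤ)) ≠ ⊥ := by
    intro hb
    rw [hb, finrank_bot] at h1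
    exact absurd h1 (Nat.not_lt_zero _)
  obtain ⟨Q, hQ, hQ0⟩ := Submodule.exists_mem_ne_zero_of_ne_bot hbot
  obtain ⟨M, N, hN, hQN⟩ := (hEME k G d (by omega) hG.1 hirr.ne_zero _ _ Q).1 hQ
  refine ⟨60 * m, (d - 4) * m, M, N, ?_, ?_, hN⟩
  · have : 0 < (d - 4) * m := Nat.mul_pos (by omega) hm
    omega
  · rintro rfl
    apply hQ0
    rw [hQN]
    simp [sec]

end Pool.Agent.H84.SM
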