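import Pool.Agent.H1.SM.GDW
import Pool.Agent.H1.SM.ORK
import Pool.Agent.H10.SM.PRM
import Pool.Agent.H11.SM.INV
import Pool.Agent.H11.SM.MUG
import Pool.Agent.H11.SM.PSG
import Pool.Agent.H11.SM.UBL
import Pool.Agent.H12.SM.IFT
import Pool.Agent.H12.SM.NDM
import Pool.Agent.H12.SM.NUA
import Pool.Agent.H12.SM.NUD
import Pool.Agent.H13.SM.EUB
import Pool.Agent.H13.SM.FOC
import Pool.Agent.H13.SM.IMF
import Pool.Agent.H13.SM.SEL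
import Pool.Agent.H16.SM.CAN
import Pool.Agent.H16.SM.CEN
import Pool.Agent.H16.SM.CGE
import Pool.Agent.H16.SM.DSC
import Pool.Agent.H16.SM.EXT
import Pool.Agent.H16.SM.JPC
import Pool.Agent.H16.SM.LED
import Pool.Agent.H16.SM.SCT
import Pool.Agent.H16.SM.VAL
import Pool.Agent.H17.SM.LBL
import Pool.Agent.H21.SM.BRX
import Pool.Agent.H21.SM.FOX
import Pool.Agent.H25.SM.IND
import Pool.Agent.H25.SM.RIE
import Pool.Agent.H26.SM.CMP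
import Pool.Agent.H32.SM.MAIN
import Pool.Agent.H33.SM.ELI
import Pool.Agent.H34.SM.CHN
import Pool.Agent.H42.SM.GPR
import Pool.Agent.H42.SM.PWR
import Pool.Agent.H47.SM.WRO
import Pool.Agent.H51.SM.CPC
import Pool.Agent.H51.SM.FNS
import Pool.Agent.H54.SM.FDN
import Pool.Agent.H55.SM.CRE
import Pool.Agent.H55.SM.FIJ
import Pool.Agent.H55.SM.FWT
import Pool.Agent.H59.SM.CBD
import Pool.Agent.H59.SM.CLM
import Pool.Agent.H59.SM.FAC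
import Pool.Agent.H59.SM.SCC
import Pool.Agent.H6.SM.CHJ
import Pool.Agent.H6.SM.S1
import Pool.Agent.H60.SM.BDM
import Pool.Agent.H60.SM.ELB
import Pool.Agent.H60.SM.EME
import Pool.Agent.H60.SM.HOM
import Pool.Agent.H61.SM.SAB
import Pool.Agent.H61.SM.SAS
import Pool.Agent.H73.SM.GPT
import Pool.Agent.H73.SM.LCB
import Pool.Agent.H74.SM.CONN
import Pool.Agent.H77.SM.DIV
import Pool.Agent.H77.SM.NULR
import Pool.Agent.H77.SM.PSJ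
import Pool.Agent.H77.SM.RAM
import Pool.Agent.H78.SM.BAS
import Pool.Agent.H78.SM.BMF
import Pool.Agent.H78.SM.RSB
import Pool.Agent.H78.SM.SDM
import Pool.Agent.H84.SM.FinalR
import Pool.Agent.H84.SM.NEG
import Pool.Agent.H84.SM.SCLR
import Pool.Agent.H85.SM.FCH
import Pool.Agent.H85.SM.FRJ
import Pool.Agent.H85.SM.NUB
import Pool.Agent.H86.SM.SM3
import Pool.Agent.H88.SM.INT
import Pool.Agent.H88.SM.THE
import Pool.Agent.H92.SM.LCA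
import Pool.Agent.H96.SM.IRR
import Pool.Agent.H96.SM.NUC
import Pool.Agent.H3.OD.Asm
import Pool.Agent.H92.OD.All
/-!
# MP_70ba79_ag: assembly of the board `smc_modules`
-/

set_option autoImplicit false

namespace Pool.Agent.H84.SM.A
theorem a_BRG : T_BRG := Pool.Agent.H21.SM.pf_BRX Pool.Agent.H3.OD.brg

theorem a_FOQ : T_FOQ := Pool.Agent.H21.SM.pf_FOX (Pool.Agent.H3.OD.fo_of Pool.Agent.H92.OD.t3)

theorem a_AFE : T_AFE := Pool.Agent.H55.SM.pf_AFE 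

theorem a_IFT : T_IFT := Pool.Agent.H12.SM.pf_IFT 

theorem a_CGE : T_CGE := Pool.Agent.H16.SM.pf_CGE 

theorem a_CPC : T_CPC := Pool.Agent.H51.SM.pf_CPC 

theorem a_BAS : T_BAS := Pool.Agent.H78.SM.pf_BAS a_IFT a_CGE a_CPC a_AFE

theorem a_RSB : T_RSB := Pool.Agent.H78.SM.pf_RSB 

theorem a_BMF : T_BMF := Pool.Agent.H78.SM.pf_BMF a_RSB

theorem a_BDM : T_BDM := Pool.Agent.H60.SM.pf_BDM a_BMF a_RSB

theorem a_RIE : T_RIE := Pool.Agent.H25.SM.pf_RIE 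

theorem a_WRO : T_WRO := Pool.Agent.H47.SM.pf_WRO 

theorem a_CAN : T_CAN := Pool.Agent.H16.SM.pf_CAN a_RIE a_WRO

theorem a_LED : T_LED := Pool.Agent.H16.SM.pf_LED 

theorem a_PSG : T_PSG := Pool.Agent.H11.SM.pf_PSG 

theorem a_EME : T_EME := Pool.Agent.H60.SM.pf_EME a_PSG

theorem a_NUL : T_NUL := Pool.Agent.H77.SM.pf_NUL 

theorem a_GPR : T_GPR := Pool.Agent.H42.SM.pf_GPR 

theorem a_SAB : T_SAB := Pool.Agent.H61.SM.pf_SAB a_RSB a_NUL a_GPR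

theorem a_UBL : T_UBL := Pool.Agent.H11.SM.pf_UBL a_SAB a_BMF a_GPR

theorem a_EUB : T_EUB := Pool.Agent.H13.SM.pf_EUB a_LED a_EME a_UBL a_BDM

theorem a_THE : T_THE := Pool.Agent.H88.SM.pf_THE 

theorem a_ORK : T_ORK := Pool.Agent.H1.SM.pf_ORK a_THE a_GPR

theorem a_INV : T_INV := Pool.Agent.H11.SM.pf_INV 

theorem a_HOM : T_HOM := Pool.Agent.H60.SM.pf_HOM 

theorem a_MUG : T_MUG := Pool.Agent.H11.SM.pf_MUG a_ORK a_GPR a_PSG a_INV a_HOM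

theorem a_CLM : T_CLM := Pool.Agent.H59.SM.pf_CLM a_MUG a_EME a_GPR a_PSG

theorem a_CMP : T_CMP := Pool.Agent.H26.SM.pf_CMP a_THE

theorem a_FRJ : T_FRJ := Pool.Agent.H85.SM.pf_FRJ 

theorem a_FCH : T_FCH := Pool.Agent.H85.SM.pf_FCH a_CMP a_FRJ a_GPR

theorem a_FDN : T_FDN := Pool.Agent.H54.SM.pf_FDN 

theorem a_FWT : T_FWT := Pool.Agent.H55.SM.pf_FWT 

theorem a_FIJ : T_FIJ := Pool.Agent.H55.SM.pf_FIJ a_GPR

theorem a_FRX : T_FRX := Pool.Agent.H85.SM.pf_FRX 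

theorem a_SAS : T_SAS := Pool.Agent.H61.SM.pf_SAS a_NUL

theorem a_SDM : T_SDM := Pool.Agent.H78.SM.pf_SDM 

theorem a_GPT : T_GPT := Pool.Agent.H73.SM.pf_GPT 

theorem a_CBD : T_CBD := Pool.Agent.H59.SM.pf_CBD a_LED a_EUB a_CLM a_FCH a_FDN a_FWT a_FIJ a_FRX a_SAS a_SDM a_GPT a_MUG a_EME a_ORK

theorem a_CEN : T_CEN := Pool.Agent.H16.SM.pf_CEN 

theorem a_CHJ : T_CHJ := Pool.Agent.H6.SM.pf_CHJ 

theorem a_CHN : T_CHN := Pool.Agent.H34.SM.pf_CHN a_CBD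

theorem a_CON : T_CON := Pool.Agent.H74.SM.pf_CON a_GPR a_ORK a_SAB a_BMF

theorem a_CRE : T_CRE := Pool.Agent.H55.SM.pf_CRE 

theorem a_DIV : T_DIV := Pool.Agent.H77.SM.pf_DIV a_ORK a_GPR a_PSG a_INV a_HOM

theorem a_DSC : T_DSC := Pool.Agent.H16.SM.DSC.pf_DSC 

theorem a_LEL : T_LEL := Pool.Agent.H16.SM.pf_LEL 

theorem a_PWR : T_PWR := Pool.Agent.H42.SM.pf_PWR a_NUL

theorem a_LBL : T_LBL := Pool.Agent.H17.SM.pf_LBL a_PWR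

theorem a_ELB : T_ELB := Pool.Agent.H60.SM.pf_ELB a_LEL a_EME a_LBL a_EUB a_BDM

theorem a_SCL : T_SCL := Pool.Agent.H84.SM.pf_SCL 

theorem a_ELI : T_ELI := Pool.Agent.H33.SM.pf_ELI a_SCL

theorem a_EXT : T_EXT := Pool.Agent.H16.SM.pf_EXT 

theorem a_FAC : T_FAC := Pool.Agent.H59.SM.pf_FAC a_INV a_HOM

theorem a_JPC : T_JPC := Pool.Agent.H16.SM.pf_JPC a_SCL

theorem a_VAL : T_VAL := Pool.Agent.H16.SM.pf_VAL 

theorem a_INT : T_INT := Pool.Agent.H88.SM.pf_INT a_JPC a_VAL a_CMP a_GPR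

theorem a_GRU : T_GRU := Pool.Agent.H16.SM.pf_GRU 

theorem a_SCC : T_SCC := Pool.Agent.H59.SM.pf_SCC a_SCL

theorem a_SCT : T_SCT := Pool.Agent.H16.SM.pf_SCT a_INT a_GRU a_SCC

theorem a_NUA : T_NUA := Pool.Agent.H12.SM.pf_NUA 

theorem a_NUB : T_NUB := Pool.Agent.H85.SM.pf_NUB 

theorem a_NUC : T_NUC := Pool.Agent.H96.SM.pf_NUC 

theorem a_NUD : T_NUD := Pool.Agent.H12.SM.pf_NUD a_NUA a_NUB a_NUC

theorem a_NDM : T_NDM := Pool.Agent.H12.SM.pf_NDM a_NUD a_CHN a_EUB a_ELB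

theorem a_NEG : T_NEG := Pool.Agent.H84.SM.pf_NEG a_NDM a_EME

theorem a_GDW : T_GDW := Pool.Agent.H1.SM.pf_GDW a_PSG

theorem a_SEL : T_SEL := Pool.Agent.H13.SM.pf_SEL a_DIV a_GDW a_NDM a_EUB a_UBL a_MUG a_ORK a_GPR a_HOM a_BDM a_EME

theorem a_IRR : T_IRR := Pool.Agent.H96.SM.pf_IRR a_NUL

theorem a_PSJ : T_PSJ := Pool.Agent.H77.SM.pf_PSJ a_IRR a_GPR a_VAL

theorem a_S1 : T_S1 := Pool.Agent.H6.SM.pf_S1 a_SCT a_FAC a_NEG a_SEL a_ELI a_CON a_PSJ a_UBL a_EUB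

theorem a_FOC : T_FOC := Pool.Agent.H13.SM.pf_FOC a_SCL a_FOQ

theorem a_IND : T_IND := Pool.Agent.H25.SM.pf_IND 

theorem a_RAM : T_RAM := Pool.Agent.H77.SM.pf_RAM a_IND

theorem a_LCA : T_LCA := Pool.Agent.H92.SM.pf_LCA a_BRG a_RAM a_BAS a_AFE a_CRE a_CEN

theorem a_LCB : T_LCB := Pool.Agent.H73.SM.pf_LCB a_BRG a_RAM a_BAS a_AFE a_CRE a_CEN

theorem a_FNS : T_FNS := Pool.Agent.H51.SM.pf_FNS 

theorem a_SM3 : T_SM3 := Pool.Agent.H86.SM.pf_SM3 a_LCA a_LCB a_CEN a_FNS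

theorem a_PRM : T_PRM := Pool.Agent.H10.SM.pf_PRM a_EXT

theorem a_IMF : T_IMF := Pool.Agent.H13.SM.pf_IMF 

theorem a_MAIN : T_MAIN := Pool.Agent.H32.SM.pf_MAIN a_S1 a_FOC a_SM3 a_PRM a_DSC a_IMF a_CAN a_IRR

theorem a_FINAL : T_FINAL := Pool.Agent.H84.SM.pf_FINAL a_MAIN

end Pool.Agent.H84.SM.A
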