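import Pool.Agent.H27.LV.Defs

/-!
# MP_70ba79_ag: complements of arbitrary smooth plane curves (board `smc_modules`)

Common definitions. `G` is a form of degree `d` in three variables, `x` a point, `y` its derivative,
`w = det (x, x', x'')`. The sections are polynomials in `x`, `y`, `w` divided by a power of `G`,
invariant under `y ↦ y + η x`, regular along the curve `G = 0` in the logarithmic jet coordinates:
this condition is expressed by the three substitutions `Psi`.
-/

set_option autoImplicit false

namespace Pool.Agent.H84.SM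

open MvPolynomial SC Pool.Agent.H27.LV

/-! ### Vectors -/

section Vec

variable {L : Type} [CommRing L]

/-- scalar product -/
def dp (a b : Fin 3 → L) : L := ∑ i, a i * b i

/-- vector product (indices modulo 3) -/
def cr (a b : Fin 3 → L) : Fin 3 → L := fun i => a (i + 1) * b (i + 2) - a (i + 2) * b (i + 1)

/-- determinant -/
def dt (a b c : Fin 3 → L) : L := dp a (cr b c)

variable {k : Type} [Field k] [Algebra k L]

/-- gradient of `G` at `x` -/
noncomputable def gr (G : MvPolynomial (Fin 3) k) (x : Fin 3 → L) : Fin 3 → L :=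
  fun i => aeval x (pderiv i G)

/-- second derivative of `G` at `x` in the direction `y` -/
noncomputable def hs (G : MvPolynomial (Fin 3) k) (x y : Fin 3 → L) : L :=
  ∑ i, ∑ j, aeval x (pderiv i (pderiv j G)) * y i * y j

end Vec

/-! ### Jets -/

section Jets

variable (k : Type) [Field k]

/-- polynomials in the point `x` (variables `inl`) and its derivative `y` (variables `inr`) -/
abbrev A2 : Type := MvPolynomial (Fin 3 ⊕ Fin 3) k

/-- polynomials in `x`, `y`, `w`; the variable of `Polynomial` is `w` -/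
abbrev R2 : Type := Polynomial (A2 k)

/-- the fraction field of `A2` -/
abbrev F2 : Type := FractionRing (A2 k)

/-- polynomials in `x` and two coordinates `q` of the direction -/
abbrev B2 : Type := MvPolynomial (Fin 3 ⊕ Fin 2) k

/-- the ring of a chart: polynomials in `x`, `q`, `z`; the variable of `Polynomial` is `z` -/
abbrev P2 : Type := Polynomial (B2 k)

variable {k}

/-- the derivation `x ∂/∂y` of `A2` -/
noncomputable def dv : Derivation k (A2 k) (A2 k) :=
  mkDerivation k (Sum.elim (fun _ => (0 : A2 k)) (fun i => X (Sum.inl i)))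

/-- invariant elements of `R2` -/
def Inv (N : R2 k) : Prop := ∀ j, dv (N.coeff j) = 0

/-- weights of the variables `x` -/
def wx : Fin 3 ⊕ Fin 3 → ℕ := Sum.elim (fun _ => 1) (fun _ => 0)

/-- weights of the variables `y` -/
def wy : Fin 3 ⊕ Fin 3 → ℕ := Sum.elim (fun _ => 0) (fun _ => 1)

/-- bihomogeneous of degree `e` in `x` and degree `i` in `y` -/
def BH (e i : ℕ) (c : A2 k) : Prop :=
  IsWeightedHomogeneous wx c e ∧ IsWeightedHomogeneous wy c i

/-- bihomogeneous of degree `e` in `x` and weight `n` in `y` (weight 1) and `w` (weight 3) -/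
def BHN (e n : ℕ) (N : R2 k) : Prop :=
  ∀ j, (3 * j ≤ n → BH e (n - 3 * j) (N.coeff j)) ∧ (n < 3 * j → N.coeff j = 0)

/-- the variables `x` in `A2` -/
noncomputable def xa : Fin 3 → A2 k := fun i => X (Sum.inl i)

/-- the variables `y` in `A2` -/
noncomputable def ya : Fin 3 → A2 k := fun i => X (Sum.inr i)

/-- the form `G` in `A2` -/
noncomputable def gA (G : MvPolynomial (Fin 3) k) : A2 k := aeval xa G

/-- the polynomial `∇G(x) · y` -/
noncomputable def fA (G : MvPolynomial (Fin 3) k) : A2 k := dp (gr G xa) ya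

/-- value of `N` at a point -/
noncomputable def ev {L : Type} [CommRing L] [Algebra k L] (x y : Fin 3 → L) (w : L) :
    R2 k →+* L :=
  Polynomial.eval₂RingHom ((aeval (Sum.elim x y) : A2 k →ₐ[k] L) : A2 k →+* L) w

/-- the variables `x` in `B2` -/
noncomputable def xb : Fin 3 → B2 k := fun i => X (Sum.inl i)

/-- the variables `q` in `B2` -/
noncomputable def qb : Fin 2 → B2 k := fun i => X (Sum.inr i)

/-- the direction `y` in the chart `l` -/
noncomputable def chy (G : MvPolynomial (Fin 3) k) (l : Fin 3) : Fin 3 → B2 k := fun i =>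
  if i = l then - (gr G xb (l + 1) * qb 0 + gr G xb (l + 2) * qb 1)
  else if i = l + 1 then gr G xb l * qb 0 else gr G xb l * qb 1

/-- `w` in the chart `l` -/
noncomputable def chw (G : MvPolynomial (Fin 3) k) (d : ℕ) (l : Fin 3) : P2 k :=
  Polynomial.C ((d : B2 k) * aeval xb G) * Polynomial.X -
    Polynomial.C (hs G xb (chy G l) * (xb (l + 1) * qb 1 - xb (l + 2) * qb 0))

/-- the form `G` in `P2` -/
noncomputable def gp (G : MvPolynomial (Fin 3) k) : P2 k := Polynomial.C (aeval xb G)

/-- the form `G` in `R2` -/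
noncomputable def gR (G : MvPolynomial (Fin 3) k) : R2 k := Polynomial.C (gA G)

/-- the substitution of the chart `l` -/
noncomputable def Psi (G : MvPolynomial (Fin 3) k) (d : ℕ) (l : Fin 3) : R2 k →+* P2 k :=
  Polynomial.eval₂RingHom
    (Polynomial.C.comp ((aeval (Sum.elim xb (chy G l)) : A2 k →ₐ[k] B2 k) : A2 k →+* B2 k))
    (chw G d l)

/-- `N / G ^ M` is a section of weight `n` and twist `τ` -/
def IsSec (G : MvPolynomial (Fin 3) k) (d n : ℕ) (τ : ℤ) (M : ℕ) (N : R2 k) : Prop :=
  Inv N ∧ (∃ e : ℕ, (e : ℤ) = τ - n + d * M ∧ BHN e n N) ∧ ∀ l, gp G ^ M ∣ Psi G d l N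

/-- the form `G` in `F2` -/
noncomputable def gF (G : MvPolynomial (Fin 3) k) : F2 k := algebraMap (A2 k) (F2 k) (gA G)

/-- the section `N / G ^ M` -/
noncomputable def sec (G : MvPolynomial (Fin 3) k) (M : ℕ) (N : R2 k) : Polynomial (F2 k) :=
  Polynomial.C ((gF G ^ M)⁻¹) * N.map (algebraMap (A2 k) (F2 k))

/-- the space of sections of weight `n` and twist `τ` -/
noncomputable def E (G : MvPolynomial (Fin 3) k) (d n : ℕ) (τ : ℤ) :
    Submodule k (Polynomial (F2 k)) :=
  Submodule.span k {Q | ∃ M N, IsSec G d n τ M N ∧ Q = sec G M N}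

/-- the projection of `y` to the plane `∇G · y = 0` along `x` -/
noncomputable def pr (G : MvPolynomial (Fin 3) k) (d : ℕ) : Fin 3 → F2 k := fun i =>
  algebraMap (A2 k) (F2 k) (ya i) -
    algebraMap (A2 k) (F2 k) (fA G * xa i) / ((d : F2 k) * gF G)

/-- the invariant function with the restriction `b` to the hypersurface `∇G · y = 0` -/
noncomputable def bm (G : MvPolynomial (Fin 3) k) (d : ℕ) : A2 k →ₐ[k] F2 k :=
  aeval (Sum.elim (fun i => algebraMap (A2 k) (F2 k) (xa i)) (pr G d))

/-- the space of the functions `bm b`, `b` of degree `e` in `x` and `i` in `y` -/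
noncomputable def BS (G : MvPolynomial (Fin 3) k) (d : ℕ) (e : ℤ) (i : ℕ) : Submodule k (F2 k) :=
  Submodule.span k {f | ∃ (e' : ℕ) (b : A2 k), (e' : ℤ) = e ∧ BH e' i b ∧ f = bm G d b}

end Jets

/-! ### Numbers -/

/-- dimension of the space of forms of bidegree `(e, i)` modulo `∇G · y` -/
def bdim (d : ℕ) (e : ℤ) (i : ℕ) : ℕ :=
  if e < 0 then 0 else (e.toNat + 2).choose 2 * (i + 2).choose 2 -
    (e.toNat + 3 - d).choose 2 * (i + 1).choose 2

/-- dimension of the space of forms of degree `r` modulo `G` -/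
def sdim (d : ℕ) (r : ℤ) : ℕ :=
  if r < 0 then 0 else (r.toNat + 2).choose 2 - (r.toNat + 2 - d).choose 2

/-- upper bound for the dimension of the space of sections -/
def ub (d n : ℕ) (τ : ℤ) : ℕ :=
  ∑ j ∈ Finset.range (n / 3 + 1), bdim d (τ - n + d * j) (n - 3 * j)

/-- upper bound for the dimension of the space of restrictions to the curve -/
def cb (d n : ℕ) (τ : ℤ) : ℕ :=
  ∑ j ∈ Finset.range (n / 3 + 1), ∑ b ∈ Finset.range (n - 3 * j + 1),
    sdim d (τ + ((b : ℤ) + j) * (d - 3))

/-! ### Curves -/

section Curves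

variable {k : Type} [Field k]

/-- `G` is a form of degree `d` which defines a smooth curve -/
def Smooth (G : MvPolynomial (Fin 3) k) (d : ℕ) : Prop :=
  G.IsHomogeneous d ∧ ∀ a : Fin 3 → k, (∀ i, eval a (pderiv i G) = 0) → a = 0

/-- point of the space of logarithmic 2-jets -/
def JP {L : Type} [CommRing L] [Algebra k L] (G : MvPolynomial (Fin 3) k) (x q s : Fin 3 → L) :
    Prop := dp (gr G x) q = 0 ∧ ∀ i, cr (gr G x) s i = - (hs G x q * q i)

/-- evaluation of the ring of the chart `l` at the point `(x, q, s)`; `g` is the inverse of the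
derivative number `l` of `G` at `x` -/
noncomputable def evl {L : Type} [CommRing L] [Algebra k L] (l : Fin 3) (g : L)
    (x q s : Fin 3 → L) : P2 k →+* L :=
  Polynomial.eval₂RingHom
    ((aeval (Sum.elim x ![g * q (l + 1), g * q (l + 2)]) : B2 k →ₐ[k] L) : B2 k →+* L) (g * s l)

/-- `c` is the generic point (homogeneous coordinates) of the curve `G = 0` -/
def GenPt {L : Type} [Field L] [Algebra k L] (G : MvPolynomial (Fin 3) k) (c : Fin 3 → L) : Prop :=
  ∀ P : MvPolynomial (Fin 3) k, aeval c P = 0 ↔ G ∣ P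

/-- the space of forms of degree `r` restricted to the curve -/
def SS {L : Type} [Field L] [Algebra k L] (c : Fin 3 → L) (r : ℤ) : Submodule k L :=
  Submodule.span k {f | ∃ (r' : ℕ) (φ : MvPolynomial (Fin 3) k), (r' : ℤ) = r ∧
    φ.IsHomogeneous r' ∧ f = aeval c φ}

/-- frame: `c × τ = ∇G`, `∇G · m = 1` -/
def Frame {L : Type} [Field L] [Algebra k L] (G : MvPolynomial (Fin 3) k) (c τ m : Fin 3 → L) :
    Prop := (∀ i, cr c τ i = gr G c i) ∧ dp (gr G c) m = 1

/-- vectors with coefficients in `L`, over `L[γ][σ]` -/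
noncomputable def li {L : Type} [Field L] (c : Fin 3 → L) : Fin 3 → Polynomial (Polynomial L) :=
  fun i => Polynomial.C (Polynomial.C (c i))

/-- the point `q = c + γ τ` -/
noncomputable def fq {L : Type} [Field L] (c τ : Fin 3 → L) : Fin 3 → Polynomial (Polynomial L) :=
  fun i => li c i + Polynomial.C Polynomial.X * li τ i

/-- the point `s = - γ² h (c × m + γ τ × m) + σ ∇G`, `h = H(τ, τ)` -/
noncomputable def fs3 {L : Type} [Field L] [Algebra k L] (G : MvPolynomial (Fin 3) k)
    (c τ m : Fin 3 → L) : Fin 3 → Polynomial (Polynomial L) := fun i =>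
  Polynomial.X * li (gr G c) i - Polynomial.C Polynomial.X ^ 2 *
    Polynomial.C (Polynomial.C (hs G c τ)) *
    (li (cr c m) i + Polynomial.C Polynomial.X * li (cr τ m) i)

/-- the value of an element of the chart `l` at the points over the generic point of the curve -/
noncomputable def fe {L : Type} [Field L] [Algebra k L] (G : MvPolynomial (Fin 3) k) (l : Fin 3)
    (c τ m : Fin 3 → L) : P2 k →+* Polynomial (Polynomial L) :=
  evl l (Polynomial.C (Polynomial.C (gr G c l)⁻¹)) (li c) (fq c τ) (fs3 G c τ m)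

variable {K : Type} [Field K] [Algebra k K]

/-- the value of `N` at the curve `x` -/
noncomputable def evc (D : Derivation k K K) (x : Fin 3 → K) : R2 k →+* K :=
  ev x (fun i => D (x i)) (dt x (fun i => D (x i)) (fun i => D (D (x i))))

/-- logarithmic derivative of `G(x)`, divided by `d` -/
noncomputable def lc (G : MvPolynomial (Fin 3) k) (d : ℕ) (D : Derivation k K K) (x : Fin 3 → K) :
    K := D (aeval x G) / (d * aeval x G)

/-- the logarithmic derivative of the point `x` -/
noncomputable def qc (G : MvPolynomial (Fin 3) k) (d : ℕ) (D : Derivation k K K) (x : Fin 3 → K) :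
    Fin 3 → K := fun i => D (x i) - lc G d D x * x i

/-- the logarithmic second derivative -/
noncomputable def sc (G : MvPolynomial (Fin 3) k) (d : ℕ) (D : Derivation k K K) (x : Fin 3 → K) :
    Fin 3 → K := cr (qc G d D x) (fun i => D (qc G d D x i) - lc G d D x * qc G d D x i)

/-- the connection `A w + b` of degree `α`, with `G = 0` as a solution -/
structure Conn (G : MvPolynomial (Fin 3) k) (α : ℕ) (A : MvPolynomial (Fin 3) k) (b : A2 k) :
    Prop where
  hA : A.IsHomogeneous α
  ne : A ≠ 0
  hb : BH α 3 b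
  inv : dv b = 0
  comp : ∀ l, aeval xb G ∣ aeval (Sum.elim xb (chy G l)) b -
    aeval xb A * hs G xb (chy G l) * (xb (l + 1) * qb 1 - xb (l + 2) * qb 0)

/-- `x` has a coordinate equal to 1 and, outside `S`, does not meet the curve `G = 0` -/
structure Crv (G : MvPolynomial (Fin 3) k) (d : ℕ) (x : Fin 3 → K) (S : Finset (DV k K)) :
    Prop where
  one : ∃ j, x j = 1
  ne : aeval x G ≠ 0
  off : ∀ v, v ∉ S → v.ord (aeval x G) = -(d * poleOrder v x)

end Curves

end Pool.Agent.H84.SM
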