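import Pool.Agent.H84.SM.Defs

/-!
# MP_70ba79_ag: targets of the board `smc_modules`, part 1: sections
-/

set_option autoImplicit false

namespace Pool.Agent.H84.SM

open MvPolynomial SC Pool.Agent.H27.LV

/-! ### Smooth curves -/

/-- IRR: a form which defines a smooth curve is irreducible -/
def T_IRR : Prop := ∀ (k : Type) [Field k] [IsAlgClosed k] [CharZero k]
  (G : MvPolynomial (Fin 3) k) (d : ℕ), 1 ≤ d → Smooth G d → Irreducible G

/-- NUL: all forms of large degree are combinations of the `N`-th powers of the derivatives -/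
def T_NUL : Prop := ∀ (k : Type) [Field k] [IsAlgClosed k] [CharZero k]
  (G : MvPolynomial (Fin 3) k) (d : ℕ), 1 ≤ d → Smooth G d → ∀ N : ℕ, ∃ e0 : ℕ, ∀ (e : ℕ)
  (φ : MvPolynomial (Fin 3) k), e0 ≤ e → φ.IsHomogeneous e →
  ∃ a : Fin 3 → MvPolynomial (Fin 3) k, (∀ i, (a i).IsHomogeneous (e - N * (d - 1))) ∧
    φ = ∑ i, a i * pderiv i G ^ N

/-- PWR: all forms of large degree are combinations of the products of `J` derivatives; the bound
grows by `d - 1` with `J` -/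
def T_PWR : Prop := ∀ (k : Type) [Field k] [IsAlgClosed k] [CharZero k]
  (G : MvPolynomial (Fin 3) k) (d : ℕ), 1 ≤ d → Smooth G d → ∃ e0 : ℕ, ∀ (J e : ℕ)
  (φ : MvPolynomial (Fin 3) k), e0 + J * (d - 1) ≤ e → φ.IsHomogeneous e →
  ∃ a : (Fin J → Fin 3) → MvPolynomial (Fin 3) k, (∀ f, (a f).IsHomogeneous (e - J * (d - 1))) ∧
    φ = ∑ f, a f * ∏ i, pderiv (f i) G

/-- GPR: `G` is prime in the ring of a chart and does not divide its derivatives -/
def T_GPR : Prop := ∀ (k : Type) [Field k] [IsAlgClosed k] [CharZero k]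
  (G : MvPolynomial (Fin 3) k) (d : ℕ), 2 ≤ d → Smooth G d → Irreducible G →
  Prime (gp G) ∧ Prime (aeval (xb (k := k)) G) ∧ Prime (gA G) ∧ Prime (gR G) ∧
  ∀ l, pderiv l G ≠ 0 ∧ ¬ G ∣ pderiv l G ∧ ¬ aeval (xb (k := k)) G ∣ gr G xb l ∧
    ¬ gp G ∣ Polynomial.C (gr G xb l)

/-! ### Invariant and homogeneous elements -/

/-- SCL: invariance and homogeneity -/
def T_SCL : Prop := ∀ (k : Type) [Field k] [CharZero k] (e n : ℕ) (N : R2 k), Inv N → BHN e n N →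
  ∀ (L : Type) [CommRing L] [Algebra k L] (x y : Fin 3 → L) (w c μ η : L),
  ev (fun i => c * x i) (fun i => c * μ * y i + η * x i) (c ^ 3 * μ ^ 3 * w) N =
    c ^ (e + n) * μ ^ n * ev x y w N

/-- INV: factors of invariant elements are invariant -/
def T_INV : Prop := ∀ (k : Type) [Field k] [CharZero k],
  (∀ a b : A2 k, a * b ≠ 0 → dv (a * b) = 0 → dv a = 0) ∧
  ∀ N N' : R2 k, N * N' ≠ 0 → Inv (N * N') → Inv N

/-- HOM: factors of homogeneous elements are homogeneous -/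
def T_HOM : Prop := ∀ (k : Type) [Field k] (e n : ℕ) (N N' : R2 k), N * N' ≠ 0 →
  BHN e n (N * N') → ∃ e1 n1 e2 n2, e1 + e2 = e ∧ n1 + n2 = n ∧ BHN e1 n1 N ∧ BHN e2 n2 N'

/-- FAC: factorisation of invariant homogeneous elements -/
def T_FAC : Prop := ∀ (k : Type) [Field k] [CharZero k] (e n : ℕ) (N : R2 k), N ≠ 0 → Inv N →
  BHN e n N → ∃ s : Multiset (R2 k), Associated s.prod N ∧
    ∀ P ∈ s, Irreducible P ∧ Inv P ∧ ∃ e' n', BHN e' n' P

/-- PSJ: the substitutions are injective on invariant elements -/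
def T_PSJ : Prop := ∀ (k : Type) [Field k] [IsAlgClosed k] [CharZero k]
  (G : MvPolynomial (Fin 3) k) (d : ℕ), 2 ≤ d → Smooth G d → ∀ (l : Fin 3) (N : R2 k), Inv N →
  Psi G d l N = 0 → N = 0

/-- THE: comparison of two charts -/
def T_THE : Prop := ∀ (k : Type) [Field k] [CharZero k] (G : MvPolynomial (Fin 3) k) (d : ℕ),
  G.IsHomogeneous d → ∀ l : Fin 3,
  ∃ Θ : P2 k →+* P2 k, Θ (gp G) = gp G ∧
    Θ = Polynomial.eval₂RingHom (Polynomial.C.comp ((aeval (Sum.elim xb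
      ![gr G xb l * qb 1, - (gr G xb (l + 1) * qb 0 + gr G xb (l + 2) * qb 1)]) :
        B2 k →ₐ[k] B2 k) : B2 k →+* B2 k))
      (Polynomial.C (gr G xb (l + 1) ^ 3) * Polynomial.X -
        Polynomial.C (gr G xb (l + 1) ^ 2 * hs G xb (chy G l) * qb 1)) ∧
    ∀ (e n : ℕ) (N : R2 k), BHN e n N →
      Θ (Psi G d (l + 1) N) = Polynomial.C (gr G xb (l + 1)) ^ n * Psi G d l N

/-- ORK: the order along the curve does not depend on the chart -/
def T_ORK : Prop := ∀ (k : Type) [Field k] [IsAlgClosed k] [CharZero k]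
  (G : MvPolynomial (Fin 3) k) (d : ℕ), 2 ≤ d → Smooth G d → Irreducible G → ∀ (e n M : ℕ)
  (N : R2 k), BHN e n N → ∀ l l', gp G ^ M ∣ Psi G d l N → gp G ^ M ∣ Psi G d l' N

/-- PSG: values of the substitution -/
def T_PSG : Prop := ∀ (k : Type) [Field k] (G : MvPolynomial (Fin 3) k) (d : ℕ) (l : Fin 3),
  Psi G d l (gR G) = gp G ∧
  (∀ N : R2 k, Polynomial.derivative (Psi G d l N) =
    Polynomial.C ((d : B2 k)) * gp G * Psi G d l (Polynomial.derivative N)) ∧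
  ∀ (L : Type) [CommRing L] [Algebra k L] (x y : Fin 3 → L) (w : L), ev x y w (gR G) = aeval x G

/-! ### Sections -/

/-- EME: the sections form a vector space -/
def T_EME : Prop := ∀ (k : Type) [Field k] [IsAlgClosed k] [CharZero k]
  (G : MvPolynomial (Fin 3) k) (d : ℕ), 1 ≤ d → G.IsHomogeneous d → G ≠ 0 → ∀ (n : ℕ) (τ : ℤ)
  (Q : Polynomial (F2 k)), Q ∈ E G d n τ ↔ ∃ M N, IsSec G d n τ M N ∧ Q = sec G M N

/-- MUG: change of the denominator -/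
def T_MUG : Prop := ∀ (k : Type) [Field k] [IsAlgClosed k] [CharZero k]
  (G : MvPolynomial (Fin 3) k) (d : ℕ), 2 ≤ d → Smooth G d → Irreducible G → ∀ (n M j : ℕ)
  (τ : ℤ) (N : R2 k), N ≠ 0 → (IsSec G d n τ M N ↔ IsSec G d n τ (M + j) (gR G ^ j * N)) ∧
  (IsSec G d n τ M N → IsSec G d n (τ + d) M (gR G * N)) ∧
  ((∃ l, gp G ^ (M + 1) ∣ Psi G d l N) → IsSec G d n τ M N → IsSec G d n (τ - d) (M + 1) N)

/-- GDW: the derivative with respect to `w` -/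
def T_GDW : Prop := ∀ (k : Type) [Field k] [IsAlgClosed k] [CharZero k]
  (G : MvPolynomial (Fin 3) k) (d : ℕ), 2 ≤ d → Smooth G d → ∀ (n M : ℕ)
  (τ : ℤ) (N : R2 k), IsSec G d (n + 3) τ M N →
  IsSec G d n (τ + d - 3) M (gR G * Polynomial.derivative N)

/-- DIV: division by a factor of weight `m`, order `m'` along the curve and twist `- a` -/
def T_DIV : Prop := ∀ (k : Type) [Field k] [IsAlgClosed k] [CharZero k]
  (G : MvPolynomial (Fin 3) k) (d : ℕ), 2 ≤ d → Smooth G d → Irreducible G →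
  ∀ (e m M' : ℕ) (P : R2 k), BHN e m P → ¬ gp G ^ (M' + 1) ∣ Psi G d 0 P →
  gp G ^ M' ∣ Psi G d 0 P → ∀ (n M : ℕ) (τ : ℤ) (N : R2 k), N ≠ 0 → IsSec G d n τ M (P * N) →
  m ≤ n ∧ IsSec G d (n - m) (τ - ((e : ℤ) + m - d * M')) M (gR G ^ M' * N)

/-! ### Evaluation -/

/-- VAL: chart values are values of `N` -/
def T_VAL : Prop := ∀ (k : Type) [Field k] (G : MvPolynomial (Fin 3) k) (d : ℕ),
  G.IsHomogeneous d → ∀ (L : Type) [CommRing L] [Algebra k L] (x q s : Fin 3 → L) (l : Fin 3)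
  (g : L), JP G x q s → g * gr G x l = 1 → ∀ N : R2 k,
  evl l g x q s (Psi G d l N) = ev x q (dp x s) N ∧ evl l g x q s (gp G) = aeval x G

/-- CMP: the values of a section in different charts agree -/
def T_CMP : Prop := ∀ (k : Type) [Field k] [IsAlgClosed k] [CharZero k]
  (G : MvPolynomial (Fin 3) k) (d : ℕ), 2 ≤ d → Smooth G d → Irreducible G → ∀ (e n M : ℕ)
  (N : R2 k), BHN e n N → ∀ (L : Type) [CommRing L] [Algebra k L] (x q s : Fin 3 → L)
  (l l' : Fin 3) (g g' : L) (N1 N2 : P2 k), JP G x q s → g * gr G x l = 1 → g' * gr G x l' = 1 →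
  gp G ^ M * N1 = Psi G d l N → gp G ^ M * N2 = Psi G d l' N →
  evl l g x q s N1 = evl l' g' x q s N2

/-- JPC: the logarithmic jet of a curve -/
def T_JPC : Prop := ∀ (k K : Type) [Field k] [CharZero k] [Field K] [Algebra k K]
  (G : MvPolynomial (Fin 3) k) (d : ℕ) (D : Derivation k K K) (x : Fin 3 → K), 1 ≤ d →
  G.IsHomogeneous d → aeval x G ≠ 0 → JP G x (qc G d D x) (sc G d D x) ∧
  dp x (sc G d D x) = dt x (fun i => D (x i)) (fun i => D (D (x i))) ∧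
  ∀ (e n : ℕ) (N : R2 k), Inv N → BHN e n N →
    ev x (qc G d D x) (dp x (sc G d D x)) N = evc D x N

/-- SCC: change of the derivation and of the homogeneous coordinates -/
def T_SCC : Prop := ∀ (k K : Type) [Field k] [CharZero k] [Field K] [Algebra k K]
  (D : Derivation k K K) (x : Fin 3 → K) (c μ : K) (e n : ℕ) (N : R2 k), Inv N → BHN e n N →
  evc (μ • D) (fun i => c * x i) N = c ^ (e + n) * μ ^ n * evc D x N

/-- INT: sections are regular at the places of a curve, if the derivation is logarithmic -/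
def T_INT : Prop := ∀ (k K : Type) [Field k] [IsAlgClosed k] [CharZero k] [Field K] [Algebra k K]
  (G : MvPolynomial (Fin 3) k) (d : ℕ), 2 ≤ d → Smooth G d → Irreducible G →
  ∀ (v : DV k K) (θ : Derivation k K K) (x : Fin 3 → K),
  (∀ z : K, 0 ≤ v.ord z → ge v 0 (θ z)) → (∀ i, 0 ≤ v.ord (x i)) →
  (∃ l, gr G x l ≠ 0 ∧ v.ord (gr G x l) = 0) → aeval x G ≠ 0 →
  ge v 0 (θ (aeval x G) / aeval x G) → ∀ (n M : ℕ) (τ : ℤ) (N : R2 k), IsSec G d n τ M N →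
  ge v 0 (evc θ x N / aeval x G ^ M)

/-- GRU: at a place a derivative of `G` does not vanish, for normalised coordinates -/
def T_GRU : Prop := ∀ (k K : Type) [Field k] [IsAlgClosed k] [CharZero k] [Field K] [Algebra k K]
  (G : MvPolynomial (Fin 3) k) (d : ℕ), 1 ≤ d → Smooth G d → ∀ (v : DV k K) (x : Fin 3 → K),
  (∀ z : K, 0 ≤ v.ord z → ∃ c : k, ge v 1 (z - algebraMap k K c)) →
  (∀ i, 0 ≤ v.ord (x i)) → (∃ i, x i ≠ 0 ∧ v.ord (x i) = 0) →
  ∃ l, gr G x l ≠ 0 ∧ v.ord (gr G x l) = 0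

/-- SCT: the fundamental inequality: negative sections which do not vanish -/
def T_SCT : Prop := ∀ (k : Type) [Field k] [IsAlgClosed k] [CharZero k]
  (G : MvPolynomial (Fin 3) k) (d : ℕ), 2 ≤ d → Smooth G d → Irreducible G →
  ∀ (K : Type) [Field K] [Algebra k K] [Algebra.EssFiniteType k K], Algebra.trdeg k K = 1 →
  ∀ (D : Derivation k K K), D ≠ 0 → ∀ (x : Fin 3 → K) (S : Finset (DV k K)), Crv G d x S →
  ∀ (n t M : ℕ) (N : R2 k), IsSec G d n (-(t : ℤ)) M N → evc D x N ≠ 0 →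
  (t : ℤ) * deg k x ≤ n * (canDeg D + S.card)

/-! ### Linear algebra -/

/-- LED: upper bound of the dimension by leading coefficients -/
def T_LED : Prop := ∀ (k V L : Type) [Field k] [AddCommGroup V] [Module k V] [AddCommGroup L]
  [Module k L] (m : ℕ) (φ : Fin m → V →ₗ[k] L) (F : Fin m → Submodule k L)
  (W : Submodule k V), (∀ i, Module.Finite k (F i)) → Module.Finite k W →
  (∀ v, (∀ i, φ i v = 0) → v ∈ W) →
  (∀ v i, (∀ j, j < i → φ j v = 0) → φ i v ∈ F i) →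
  Module.Finite k V ∧ Module.finrank k V ≤ Module.finrank k W + ∑ i, Module.finrank k (F i)

/-- LEL: lower bound of the dimension by leading coefficients -/
def T_LEL : Prop := ∀ (k V L : Type) [Field k] [AddCommGroup V] [Module k V] [AddCommGroup L]
  [Module k L] (m : ℕ) (φ : Fin m → V →ₗ[k] L) (F : Fin m → Submodule k L),
  Module.Finite k V → (∀ i, Module.Finite k (F i)) →
  (∀ i, ∀ f ∈ F i, ∃ v, (∀ j, j < i → φ j v = 0) ∧ φ i v = f) →
  ∑ i, Module.finrank k (F i) ≤ Module.finrank k V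

/-! ### The leading coefficient in `w` -/

/-- RSB: `x 0`, `x 1` are a regular sequence modulo `∇G · y` -/
def T_RSB : Prop := ∀ (k : Type) [Field k] [IsAlgClosed k] [CharZero k]
  (G : MvPolynomial (Fin 3) k) (d : ℕ), 2 ≤ d → Smooth G d →
  Prime (fA G) ∧ ∀ (N : ℕ) (u v : A2 k), fA G ∣ xa 1 ^ N * u - xa 0 ^ N * v →
    ∃ u' : A2 k, fA G ∣ u - xa 0 ^ N * u'

/-- SAB: saturation modulo `∇G · y` -/
def T_SAB : Prop := ∀ (k : Type) [Field k] [IsAlgClosed k] [CharZero k]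
  (G : MvPolynomial (Fin 3) k) (d : ℕ), 2 ≤ d → Smooth G d → Irreducible G →
  ∀ (e i M : ℕ) (c : A2 k), BH e i c →
  (∀ l, aeval xb G ^ M ∣ (aeval (Sum.elim xb (chy G l)) c : B2 k)) →
  ∃ b : A2 k, fA G ∣ c - gA G ^ M * b ∧ (b = 0 ∨ ∃ e', e' + d * M = e ∧ BH e' i b)

/-- BMF: properties of `bm` -/
def T_BMF : Prop := ∀ (k : Type) [Field k] [IsAlgClosed k] [CharZero k]
  (G : MvPolynomial (Fin 3) k) (d : ℕ), 2 ≤ d → Smooth G d →
  (∀ b : A2 k, bm G d b = 0 ↔ fA G ∣ b) ∧ bm G d (gA G) = gF G ∧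
  ∀ c : A2 k, dv c = 0 → bm G d c = algebraMap (A2 k) (F2 k) c

/-- BDM: dimension of the space of leading coefficients -/
def T_BDM : Prop := ∀ (k : Type) [Field k] [IsAlgClosed k] [CharZero k]
  (G : MvPolynomial (Fin 3) k) (d : ℕ), 2 ≤ d → Smooth G d → ∀ (e : ℤ) (i : ℕ),
  Module.Finite k (BS G d e i) ∧ Module.finrank k (BS G d e i) = bdim d e i

/-- UBL: leading coefficients of sections -/
def T_UBL : Prop := ∀ (k : Type) [Field k] [IsAlgClosed k] [CharZero k]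
  (G : MvPolynomial (Fin 3) k) (d : ℕ), 2 ≤ d → Smooth G d → Irreducible G →
  ∀ (n M : ℕ) (τ : ℤ) (N : R2 k), IsSec G d n τ M N → ∀ J, 3 * J ≤ n →
  (∀ j, J < j → N.coeff j = 0) →
  (sec G M N).coeff J * gF G ^ J ∈ BS G d (τ - n + d * J) (n - 3 * J)

/-- LBL: for large twist all leading coefficients occur -/
def T_LBL : Prop := ∀ (k : Type) [Field k] [IsAlgClosed k] [CharZero k]
  (G : MvPolynomial (Fin 3) k) (d : ℕ), 2 ≤ d → Smooth G d → ∃ e1 : ℕ, ∀ (n : ℕ) (τ : ℤ),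
  (n : ℤ) + e1 ≤ τ → ∀ J, 3 * J ≤ n → ∀ f ∈ BS G d (τ - n + d * J) (n - 3 * J),
  ∃ M N, IsSec G d n τ M N ∧ (∀ j, J < j → N.coeff j = 0) ∧ (sec G M N).coeff J * gF G ^ J = f

/-- EUB: upper bound for the dimension of the space of sections -/
def T_EUB : Prop := ∀ (k : Type) [Field k] [IsAlgClosed k] [CharZero k]
  (G : MvPolynomial (Fin 3) k) (d : ℕ), 2 ≤ d → Smooth G d → Irreducible G →
  ∀ (n : ℕ) (τ : ℤ), Module.Finite k (E G d n τ) ∧ Module.finrank k (E G d n τ) ≤ ub d n τ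

/-- ELB: lower bound for large twist -/
def T_ELB : Prop := ∀ (k : Type) [Field k] [IsAlgClosed k] [CharZero k]
  (G : MvPolynomial (Fin 3) k) (d : ℕ), 2 ≤ d → Smooth G d → Irreducible G → ∃ e1 : ℕ,
  ∀ (n : ℕ) (τ : ℤ), (n : ℤ) + e1 ≤ τ → ub d n τ ≤ Module.finrank k (E G d n τ)

/-! ### Restriction to the curve -/

/-- GPT: the generic point of the curve -/
def T_GPT : Prop := ∀ (k : Type) [Field k] (G : MvPolynomial (Fin 3) k), Irreducible G →
  ∃ (L : Type) (_ : Field L) (_ : Algebra k L) (c : Fin 3 → L), GenPt G c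

/-- SDM: dimension of the space of forms on the curve -/
def T_SDM : Prop := ∀ (k L : Type) [Field k] [Field L] [Algebra k L]
  (G : MvPolynomial (Fin 3) k) (d : ℕ) (c : Fin 3 → L), G.IsHomogeneous d → G ≠ 0 → GenPt G c →
  ∀ r : ℤ, Module.Finite k (SS (k := k) c r) ∧ Module.finrank k (SS (k := k) c r) ≤ sdim d r

/-- SAS: saturation on the curve -/
def T_SAS : Prop := ∀ (k L : Type) [Field k] [IsAlgClosed k] [CharZero k] [Field L] [Algebra k L]
  (G : MvPolynomial (Fin 3) k) (d : ℕ) (c : Fin 3 → L), 2 ≤ d → Smooth G d → Irreducible G →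
  GenPt G c → ∀ (f : L) (r : ℤ) (N : ℕ), (∀ l l' : Fin 3,
    c l ^ N * gr G c l' ^ N * f ∈ SS (k := k) c (r + N + N * ((d : ℤ) - 1))) →
  f ∈ SS (k := k) c r

/-- FRJ: the points of a frame are logarithmic jets -/
def T_FRJ : Prop := ∀ (k L : Type) [Field k] [CharZero k] [Field L] [Algebra k L]
  (G : MvPolynomial (Fin 3) k) (d : ℕ) (c τ m : Fin 3 → L), G.IsHomogeneous d →
  aeval c G = 0 → Frame G c τ m → JP G (li c) (fq c τ) (fs3 G c τ m)

/-- FRX: the frames which are used -/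
def T_FRX : Prop := ∀ (k L : Type) [Field k] [CharZero k] [Field L] [Algebra k L]
  (G : MvPolynomial (Fin 3) k) (d : ℕ) (c : Fin 3 → L), G.IsHomogeneous d → aeval c G = 0 →
  ∀ l l' : Fin 3, c l ≠ 0 → gr G c l' ≠ 0 →
  Frame G c (fun i => cr (gr G c) (Pi.single l 1) i / c l) (Pi.single l' (gr G c l')⁻¹)

/-- FCH: the leading coefficient does not depend on the frame and on the chart. `N'` is the
section in the chart; order of the coefficients: large powers of `σ` first, then small powers of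
`γ`. -/
def T_FCH : Prop := ∀ (k L : Type) [Field k] [IsAlgClosed k] [CharZero k] [Field L] [Algebra k L]
  (G : MvPolynomial (Fin 3) k) (d : ℕ) (c : Fin 3 → L), 2 ≤ d → Smooth G d → Irreducible G →
  GenPt G c → ∀ (τ m τ' m' : Fin 3 → L), Frame G c τ m → Frame G c τ' m' →
  ∀ (e n M : ℕ) (N : R2 k), BHN e n N → ∀ (l l' : Fin 3) (N1 N2 : P2 k),
  gp G ^ M * N1 = Psi G d l N → gp G ^ M * N2 = Psi G d l' N → ∀ j b : ℕ,
  (∀ j', j < j' → (fe G l c τ m N1).coeff j' = 0) →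
  (∀ b', b' < b → ((fe G l c τ m N1).coeff j).coeff b' = 0) →
  ((fe G l' c τ' m' N2).coeff j).coeff b = ((fe G l c τ m N1).coeff j).coeff b

/-- FDN: denominators of the coefficients in the special frames -/
def T_FDN : Prop := ∀ (k L : Type) [Field k] [IsAlgClosed k] [CharZero k] [Field L] [Algebra k L]
  (G : MvPolynomial (Fin 3) k) (d : ℕ) (c : Fin 3 → L), 2 ≤ d → Smooth G d → Irreducible G →
  GenPt G c → ∀ (n M : ℕ) (τ : ℤ) (N : R2 k), IsSec G d n τ M N → ∀ (l l' : Fin 3) (N1 : P2 k),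
  gp G ^ M * N1 = Psi G d l' N → ∀ j b : ℕ, ∃ n0 : ℕ, ∀ n1 : ℕ, n0 ≤ n1 →
  c l ^ n1 * gr G c l' ^ n1 * ((fe G l' c (fun i => cr (gr G c) (Pi.single l 1) i / c l)
    (Pi.single l' (gr G c l')⁻¹) N1).coeff j).coeff b ∈
  SS (k := k) c (τ + ((b : ℤ) + j) * (d - 3) + n1 + n1 * ((d : ℤ) - 1))

/-- FWT: the coefficients vanish for `n < b + 3 j` -/
def T_FWT : Prop := ∀ (k L : Type) [Field k] [IsAlgClosed k] [CharZero k] [Field L] [Algebra k L]
  (G : MvPolynomial (Fin 3) k) (d : ℕ) (c τ m : Fin 3 → L), 2 ≤ d → Smooth G d →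
  Irreducible G → GenPt G c → Frame G c τ m → ∀ (e n M : ℕ) (N : R2 k), BHN e n N →
  ∀ (l : Fin 3) (N1 : P2 k), gp G ^ M * N1 = Psi G d l N → ∀ j b : ℕ, n < b + 3 * j →
  ((fe G l c τ m N1).coeff j).coeff b = 0

/-- FIJ: a section which vanishes on the curve is divisible by `G` -/
def T_FIJ : Prop := ∀ (k L : Type) [Field k] [IsAlgClosed k] [CharZero k] [Field L] [Algebra k L]
  (G : MvPolynomial (Fin 3) k) (d : ℕ) (c τ m : Fin 3 → L), 2 ≤ d → Smooth G d →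
  Irreducible G → GenPt G c → Frame G c τ m → ∀ (e n M : ℕ) (N : R2 k), BHN e n N →
  ∀ (l : Fin 3) (N1 : P2 k), gp G ^ M * N1 = Psi G d l N → fe G l c τ m N1 = 0 →
  gp G ∣ N1

/-- CLM: the section in a chart, as a linear map -/
def T_CLM : Prop := ∀ (k : Type) [Field k] [IsAlgClosed k] [CharZero k]
  (G : MvPolynomial (Fin 3) k) (d : ℕ), 2 ≤ d → Smooth G d → Irreducible G →
  ∀ (n : ℕ) (τ : ℤ) (l : Fin 3), ∃ cl : E G d n τ →ₗ[k] P2 k, ∀ (Q : E G d n τ) (M : ℕ)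
  (N : R2 k), IsSec G d n τ M N → (Q : Polynomial (F2 k)) = sec G M N →
  gp G ^ M * cl Q = Psi G d l N

/-- CBD: dimension of the space of restrictions to the curve -/
def T_CBD : Prop := ∀ (k : Type) [Field k] [IsAlgClosed k] [CharZero k]
  (G : MvPolynomial (Fin 3) k) (d : ℕ), 2 ≤ d → Smooth G d → Irreducible G →
  ∀ (n : ℕ) (τ : ℤ), Module.finrank k (E G d n τ) ≤
    Module.finrank k (E G d n (τ - d)) + cb d n τ

/-- CHN: iteration of CBD -/
def T_CHN : Prop := ∀ (k : Type) [Field k] [IsAlgClosed k] [CharZero k]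
  (G : MvPolynomial (Fin 3) k) (d : ℕ), 2 ≤ d → Smooth G d → Irreducible G →
  ∀ (n I : ℕ) (τ : ℤ), Module.finrank k (E G d n (τ + I * d)) ≤
    Module.finrank k (E G d n τ) + ∑ i ∈ Finset.range I, cb d n (τ + (i + 1) * d)

/-! ### Numerical estimates -/

/-- NUA -/
def T_NUA : Prop := ∀ d e1 : ℕ, 4 ≤ d → ∃ C : ℝ, ∀ m : ℕ, 1 ≤ m →
  (4 * (d : ℝ) ^ 2 - 3 * d) / 648 * (60 * d * m) ^ 4 - C * (m : ℝ) ^ 3 ≤
    (ub d (60 * d * m) ((60 * d * m + d * e1 : ℕ) : ℤ) : ℝ)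

/-- NUB -/
def T_NUB : Prop := ∀ d : ℕ, 4 ≤ d → ∃ C : ℝ, ∀ (N n : ℕ) (τ : ℤ), 1 ≤ N → n ≤ N → 0 ≤ τ →
  τ ≤ d → (ub d n τ : ℝ) ≤
    ((d : ℝ) - 3) ^ 4 * (4 * d - 3) / (648 * (d : ℝ) ^ 3) * (N : ℝ) ^ 4 + C * (N : ℝ) ^ 3

/-- NUC -/
def T_NUC : Prop := ∀ d e1 : ℕ, 5 ≤ d → ∃ C : ℝ, ∀ m : ℕ, 1 ≤ m →
  ((∑ i ∈ Finset.range ((d + 56) * m + e1), cb d (60 * d * m)
    (-(((d - 4) * d * m : ℕ) : ℤ) + ((i : ℤ) + 1) * d) : ℕ) : ℝ) ≤
  (54 * (1 - (((d : ℝ) - 4) / 60) ^ 2) + 48 * (d - 3) * (1 + ((d : ℝ) - 4) / 60)) / 648 *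
    (60 * d * m) ^ 4 + (d - 4) ^ 2 * (d : ℝ) ^ 4 * (m : ℝ) ^ 4 + C * (m : ℝ) ^ 3

/-- NUD -/
def T_NUD : Prop := ∀ d : ℕ, 50 ≤ d → ∀ e1 : ℕ, ∃ m : ℕ, 1 ≤ m ∧ ∀ (n : ℕ) (τ : ℤ),
  n ≤ 56 * d * m → 0 ≤ τ → τ ≤ d →
  ∑ i ∈ Finset.range ((d + 56) * m + e1), cb d (60 * d * m)
    (-(((d - 4) * d * m : ℕ) : ℤ) + ((i : ℤ) + 1) * d) + ub d n τ <
  ub d (60 * d * m) ((60 * d * m + d * e1 : ℕ) : ℤ)

/-- NDM: the dimension inequality -/
def T_NDM : Prop := ∀ (k : Type) [Field k] [IsAlgClosed k] [CharZero k]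
  (G : MvPolynomial (Fin 3) k) (d : ℕ), 50 ≤ d → Smooth G d → Irreducible G →
  ∃ m : ℕ, 1 ≤ m ∧ ∀ (n : ℕ) (τ : ℤ), n ≤ 56 * m → 0 ≤ τ → τ ≤ d →
  Module.finrank k (E G d n τ) < Module.finrank k (E G d (60 * m) (-(((d - 4) * m : ℕ) : ℤ)))

/-! ### The second section -/

/-- SEL: every irreducible section, except a connection of negative twist, has a negative section
without common factor -/
def T_SEL : Prop := ∀ (k : Type) [Field k] [IsAlgClosed k] [CharZero k]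
  (G : MvPolynomial (Fin 3) k) (d : ℕ), 50 ≤ d → Smooth G d → Irreducible G →
  ∀ (e m M' : ℕ) (P : R2 k), Irreducible P → 1 ≤ P.natDegree → Inv P → BHN e m P →
  ¬ gp G ^ (M' + 1) ∣ Psi G d 0 P → gp G ^ M' ∣ Psi G d 0 P →
  (m = 3 → (d : ℤ) * M' ≤ e + m) →
  ∃ (n t M : ℕ) (N : R2 k), 1 ≤ t ∧ IsSec G d n (-(t : ℤ)) M N ∧ ¬ P ∣ N

/-- NEG: there is a negative section -/
def T_NEG : Prop := ∀ (k : Type) [Field k] [IsAlgClosed k] [CharZero k]
  (G : MvPolynomial (Fin 3) k) (d : ℕ), 50 ≤ d → Smooth G d → Irreducible G →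
  ∃ (n t M : ℕ) (N : R2 k), 1 ≤ t ∧ N ≠ 0 ∧ IsSec G d n (-(t : ℤ)) M N

/-- ELI: elimination of `w` -/
def T_ELI : Prop := ∀ (k : Type) [Field k] [IsAlgClosed k] [CharZero k]
  (e m e' n : ℕ) (P N : R2 k), Irreducible P → 1 ≤ P.natDegree → Inv P → BHN e m P → Inv N →
  BHN e' n N → ¬ P ∣ N → ∃ c : A2 k, c ≠ 0 ∧ dv c = 0 ∧ (∃ e2 i, BH e2 i c) ∧
  ∀ (K : Type) [Field K] [Algebra k K] (D : Derivation k K K) (x : Fin 3 → K),
  evc D x P = 0 → evc D x N = 0 → aeval (Sum.elim x fun i => D (x i)) c = 0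

/-- CON: the irreducible sections of weight 3 and negative twist are connections -/
def T_CON : Prop := ∀ (k : Type) [Field k] [IsAlgClosed k] [CharZero k]
  (G : MvPolynomial (Fin 3) k) (d : ℕ), 5 ≤ d → Smooth G d → Irreducible G →
  ∀ (e M' : ℕ) (P : R2 k), Irreducible P → 1 ≤ P.natDegree → Inv P → BHN e 3 P →
  gp G ^ M' ∣ Psi G d 0 P → (e : ℤ) + 3 < d * M' →
  ∃ (α : ℕ) (A : MvPolynomial (Fin 3) k) (b : A2 k), α + 4 ≤ d ∧ Conn G α A b ∧
  ∀ (K : Type) [Field K] [Algebra k K] (D : Derivation k K K) (x : Fin 3 → K),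
  aeval x G ≠ 0 → evc D x P = 0 →
  aeval x A * dt x (fun i => D (x i)) (fun i => D (D (x i))) +
    aeval (Sum.elim x fun i => D (x i)) b = 0

/-- S1: the result of part 1 -/
def T_S1 : Prop := ∀ (k : Type) [Field k] [IsAlgClosed k] [CharZero k]
  (G : MvPolynomial (Fin 3) k) (d : ℕ), 50 ≤ d → Smooth G d → Irreducible G →
  ∃ (B : ℕ) (cs : Set (A2 k)) (ps : Set (ℕ × MvPolynomial (Fin 3) k × A2 k)), cs.Finite ∧
  ps.Finite ∧ (∀ c ∈ cs, c ≠ 0 ∧ dv c = 0 ∧ ∃ e i, BH e i c) ∧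
  (∀ p ∈ ps, p.1 + 4 ≤ d ∧ Conn G p.1 p.2.1 p.2.2) ∧
  ∀ (K : Type) [Field K] [Algebra k K] [Algebra.EssFiniteType k K], Algebra.trdeg k K = 1 →
  ∀ (D : Derivation k K K), D ≠ 0 → ∀ (x : Fin 3 → K) (S : Finset (DV k K)), Crv G d x S →
  (deg k x ≤ B * (canDeg D + S.card)) ∨
  (∃ c ∈ cs, aeval (Sum.elim x fun i => D (x i)) c = 0) ∨
  ∃ p ∈ ps, aeval x p.2.1 * dt x (fun i => D (x i)) (fun i => D (D (x i))) +
    aeval (Sum.elim x fun i => D (x i)) p.2.2 = 0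

end Pool.Agent.H84.SM
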