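import Pool.Agent.H84.SM.Targets
import Pool.Agent.H84.SM.Targets2
import Pool.Agent.H3.OD.Targets

/-!
# MP_70ba79_ag: bridge between the boards `smc_modules` and `ode2_modules`
-/

set_option autoImplicit false

namespace Pool.Agent.H84.SM

open MvPolynomial SC Pool.Agent.H27.LV

/-- BRX -/
def T_BRX : Prop := Pool.Agent.H3.OD.T_BRG → T_BRG

/-- FOX -/
def T_FOX : Prop := Pool.Agent.H3.OD.T_FO → T_FOQ

end Pool.Agent.H84.SM
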